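import Pool.Agent.GJ.Bas
import Pool.Agent.H73.AL.Marks
import Pool.Agent.TS.V.Sub
import Pool.Agent.TS.F.Fld

/-!
# GJ/H-Loc: equal marks at the subgroups of the decomposition groups

`P.D` acts on `GQ ⧸ H` and `GQ ⧸ J`; by `marks_iso` for `Γ = P.D` there is an equivariant bijection. `exists_same`: the
point `1 H` has the stabilizer `P.D ⊓ H`; its image `y J` has the stabilizer `P.D ⊓ y J y⁻¹`.
`ci_of_marks`: `P.D ⊓ J` is the intersection of `P.D` with a conjugate of `H`. `exists_tr` is `exists_TR`.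
-/

namespace Pool.Agent.GJ

open MulAction Pool.Agent.H73.DU Pool.Agent.H73.AL Pool.Agent.LD Pool.Agent.TS

/-- equal marks at the subgroups of `D` give a bijection equivariant under `D` -/
private theorem Loc_iso {G : Type} [Group G] (D H J : Subgroup G) [Finite (G ⧸ H)]
    [Finite (G ⧸ J)] (hm : ∀ U : Subgroup G, U ≤ D → pc H U = pc J U) :
    ∃ e : (G ⧸ H) ≃ (G ⧸ J), ∀ g ∈ D, ∀ x, e (g • x) = g • e x := by
  have key : ∀ (X : Type) [MulAction G X] (U : Subgroup D),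
      pch D X U = pch G X (U.map D.subtype) := by
    intro X _ U
    have h1 : fx X U = fx X (U.map D.subtype) := by
      ext x
      constructor
      · rintro hx _ ⟨u, hu, rfl⟩
        exact hx u hu
      · intro hx u hu
        exact hx _ ⟨u, hu, rfl⟩
    unfold pch
    rw [h1]
  obtain ⟨e, he⟩ := marks_iso (Γ := D) (G ⧸ H) (G ⧸ J) (fun U => by
    have h1 := key (G ⧸ H) U
    have h2 := key (G ⧸ J) U
    have h3 := hm (U.map D.subtype) (by
      rintro _ ⟨u, -, rfl⟩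
      exact u.2)
    exact h1.trans (h3.trans h2.symm))
  exact ⟨e, fun g hg x => he ⟨g, hg⟩ x⟩

private theorem Loc_mem {G : Type} [Group G] (J : Subgroup G) (g y : G) :
    g • (y : G ⧸ J) = (y : G ⧸ J) ↔ g ∈ cj y⁻¹ J := by
  have h1 : g • (y : G ⧸ J) = ((g * y : G) : G ⧸ J) := rfl
  rw [h1, QuotientGroup.eq, mem_cj_iff]
  constructor
  · intro h
    refine ⟨y⁻¹ * g * y, ?_, by group⟩
    have h2 := J.inv_mem h
    have h3 : ((g * y)⁻¹ * y)⁻¹ = y⁻¹ * g * y := by group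
    rwa [h3] at h2
  · rintro ⟨u, hu, rfl⟩
    have h3 : (y⁻¹⁻¹ * u * y⁻¹ * y)⁻¹ * y = u⁻¹ := by group
    rw [h3]
    exact J.inv_mem hu

private theorem Loc_one {G : Type} [Group G] (H : Subgroup G) : cj (1 : G)⁻¹ H = H := by
  ext g
  rw [mem_cj_iff]
  constructor
  · rintro ⟨u, hu, rfl⟩
    simpa using hu
  · intro h
    exact ⟨g, h, by simp⟩

theorem exists_same {H J : Subgroup GQ} (hH : IsOpen (H : Set GQ)) (hJ : IsOpen (J : Set GQ))
    {P : Pl} (hm : ∀ U : Subgroup GQ, U ≤ P.D → pc H U = pc J U) :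
    ∃ y : GQ, P.D ⊓ cj y J = P.D ⊓ H := by
  have := fin_open hH
  have := fin_open hJ
  obtain ⟨e, he⟩ := Loc_iso P.D H J hm
  obtain ⟨y, hy⟩ := QuotientGroup.mk_surjective (e ((1 : GQ) : GQ ⧸ H))
  refine ⟨y⁻¹, ?_⟩
  ext g
  rw [Subgroup.mem_inf, Subgroup.mem_inf]
  refine and_congr_right fun hg => ?_
  have h1 := Loc_mem J g y
  have h2 := Loc_mem H g 1
  rw [Loc_one] at h2
  rw [← h1, ← h2, hy, ← he g hg, e.apply_eq_iff_eq]

theorem ci_of_marks {V T : Finset ℕ} {i : ℕ} {H J : Subgroup GQ} (hH : Ci V T i H)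
    (hJ : IsOpen (J : Set GQ))
    (hm : ∀ P : Pl, Pin V T P → ∀ U : Subgroup GQ, U ≤ P.D → pc H U = pc J U) : Ci V T i J := by
  refine ⟨hJ, fun P hP => ?_⟩
  obtain ⟨y, hy⟩ := exists_same hJ hH.1 (P := P) fun U hU => (hm P hP U hU).symm
  have h1 : J.relIndex P.D = (cj y H).relIndex P.D := by
    rw [← Subgroup.inf_relIndex_right J P.D, ← Subgroup.inf_relIndex_right (cj y H) P.D,
      inf_comm J P.D, inf_comm (cj y H) P.D, hy]
  rw [h1]
  exact (Ci.cj hH y).2 P hP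

private theorem Loc_idx (F : NF) (φ : F.F →+* AlgebraicClosure ℚ) :
    (stb φ).index = Module.finrank ℚ F.F := by
  have h3 := congrFun (mark_eq_pc F.F φ) ⊥
  rw [pc_bot, mark, pch_bot] at h3
  have h4 := NumberField.Embeddings.card F.F (AlgebraicClosure ℚ)
  rw [← Nat.card_eq_fintype_card] at h4
  rw [h4] at h3
  have h5 : (Module.finrank ℚ F.F : ℤ) = ((stb φ).index : ℤ) := h3
  exact_mod_cast h5.symm

/-- the complex conjugations fix the embeddings of a totally real field -/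
private theorem Loc_tr (F : NF) (hF : NumberField.InfinitePlace.nrComplexPlaces F.F = 0)
    (φ : F.F →+* AlgebraicClosure ℚ) : TR (stb φ) := by
  intro ι c hc
  have h1 : NumberField.ComplexEmbedding.IsReal (ι.comp φ) := by
    rw [← NumberField.InfinitePlace.isReal_mk_iff]
    exact (NumberField.nrComplexPlaces_eq_zero_iff.1 hF).isReal _
  rw [NumberField.ComplexEmbedding.isReal_iff] at h1
  refine MulAction.mem_stabilizer_iff.2 ?_
  ext x
  rw [smul_emb]
  apply ι.injective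
  rw [hc (φ x)]
  exact RingHom.congr_fun h1 x

/-- a totally real field locally isomorphic at `V` and `T` -/
theorem exists_tr {V T : Finset ℕ} {H : Subgroup GQ} (hH : IsOpen (H : Set GQ)) :
    ∃ J : Subgroup GQ, IsOpen (J : Set GQ) ∧ TR J ∧ J.index = H.index ∧
      ∀ P : Pl, P.p ∈ V ∪ T → ∀ U : Subgroup GQ, U ≤ P.D → pc H U = pc J U := by
  obtain ⟨K, ψ, -, hm, hi⟩ := exists_nf H hH
  obtain ⟨F, hF0, hFn, hFm⟩ := exists_TR (V ∪ T) K
  obtain ⟨φ⟩ : Nonempty (F.F →+* AlgebraicClosure ℚ) := inferInstance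
  refine ⟨stb φ, stab_open F.F φ, Loc_tr F hF0 φ, by rw [Loc_idx, hFn, hi], ?_⟩
  intro P hP U hU
  have h1 : mark F.F = pc (stb φ) := mark_eq_pc F.F φ
  rw [← hm, ← h1]
  refine hFm P.p hP U ⟨P.g, ?_⟩
  intro x hx
  obtain ⟨u, hu, rfl⟩ := mem_cj_iff.1 hx
  obtain ⟨d, hd, h2⟩ := mem_cj_iff.1 (hU hu)
  have h3 : P.g⁻¹ * u * P.g = d := by
    rw [← h2]
    group
  rw [h3]
  exact hd

end Pool.Agent.GJ
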