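import Pool.Agent.GJ.Bas

/-!
# GJ/H-Deep: an additional factor 2 in the local degree

`[D : D ⊓ J ⊓ H1] = [D : D ⊓ J] [D ⊓ J : D ⊓ J ⊓ H1]`. If the second factor is odd, then `D ⊓ NM`, which is contained in `J` and acts
through a `2`-group on the orbit of the coset `H1` under `D ⊓ J`, has a fixed point, so it acts trivially, against `hne`.
-/

namespace Pool.Agent.GJ

open MulAction Pool.Agent.H73.DU Pool.Agent.H73.AL Pool.Agent.LD Pool.Agent.TS

private theorem Deep_grp {Γ : Type} [Group Γ] (D NM N H : Subgroup Γ) [NM.Normal] [N.Normal]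
    (hsq : ∀ e ∈ NM, e * e ∈ N) (hH : N ≤ H) (g : Γ)
    (hodd : ¬ 2 ∣ (MulAction.stabilizer D (g : Γ ⧸ H)).index) (e : Γ) (heD : e ∈ D)
    (heN : e ∈ NM) : g⁻¹ * e * g ∈ H := by
  have hidx := MulAction.index_stabilizer D (g : Γ ⧸ H)
  have hcard : ¬ 2 ∣ Nat.card (MulAction.orbit D (g : Γ ⧸ H)) := by
    rw [Nat.card_coe_set_eq, ← hidx]
    exact hodd
  have hfin : Finite (MulAction.orbit D (g : Γ ⧸ H)) := by
    refine Nat.finite_of_card_ne_zero fun h => hcard ?_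
    rw [h]
    exact dvd_zero 2
  let E : Subgroup D := NM.subgroupOf D
  have hEn : E.Normal := inferInstance
  let f : E →* Equiv.Perm (MulAction.orbit D (g : Γ ⧸ H)) :=
    (MulAction.toPermHom D (MulAction.orbit D (g : Γ ⧸ H))).comp E.subtype
  have hf : ∀ (a : E) (x : MulAction.orbit D (g : Γ ⧸ H)), f a x = (a : D) • x := fun a x => rfl
  have hP : IsPGroup 2 f.range := by
    rintro ⟨b, a, rfl⟩
    refine ⟨1, ?_⟩
    apply Subtype.ext
    change (f a) ^ 2 ^ 1 = 1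
    rw [pow_one, pow_two]
    ext x
    rw [Equiv.Perm.mul_apply, hf, hf, Equiv.Perm.one_apply]
    obtain ⟨⟨y, hy⟩⟩ : Nonempty {y : Γ // (y : Γ ⧸ H) = x.1} := by
      obtain ⟨y, hy⟩ := QuotientGroup.mk_surjective x.1
      exact ⟨⟨y, hy⟩⟩
    change ((a : D) : Γ) • ((a : D) : Γ) • x.1 = x.1
    rw [← hy, ← mul_smul]
    change ((((a : D) : Γ) * ((a : D) : Γ) * y : Γ) : Γ ⧸ H) = y
    rw [eq_comm, QuotientGroup.eq]
    apply hH
    have h1 : ((a : D) : Γ) * ((a : D) : Γ) ∈ N := hsq _ (Subgroup.mem_subgroupOf.1 a.2)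
    have h2 := Subgroup.Normal.conj_mem (inferInstance : N.Normal) _ h1 y⁻¹
    rw [inv_inv, mul_assoc] at h2
    exact h2
  obtain ⟨⟨x, hxo⟩, hx⟩ := hP.nonempty_fixed_point_of_prime_not_dvd_card _ hcard
  have hx' : ∀ a : D, a ∈ E → a • x = x := by
    intro a ha
    have h1 := hx ⟨f ⟨a, ha⟩, ⟨⟨a, ha⟩, rfl⟩⟩
    exact congrArg Subtype.val h1
  obtain ⟨d, hd⟩ := hxo
  have hd' : x = d • (g : Γ ⧸ H) := hd.symm
  have h2 : d * ⟨e, heD⟩ * d⁻¹ ∈ E :=
    hEn.conj_mem _ (Subgroup.mem_subgroupOf.2 heN) d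
  have h3 := hx' _ h2
  rw [hd', ← mul_smul, inv_mul_cancel_right, mul_smul] at h3
  have h4 : (⟨e, heD⟩ : D) • (g : Γ ⧸ H) = (g : Γ ⧸ H) := (MulAction.injective d) h3
  have h5 : ((e * g : Γ) : Γ ⧸ H) = (g : Γ ⧸ H) := h4
  rw [eq_comm, QuotientGroup.eq] at h5
  rw [mul_assoc]
  exact h5

theorem deep {G : Type} [Group G] (NM N : Subgroup G) [NM.Normal] [N.Normal] [N.FiniteIndex]
    (hsq : ∀ e ∈ NM, e * e ∈ N) {i : ℕ} {J H1 D : Subgroup G} (hJ : NM ≤ J) (hN : N ≤ H1)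
    (hd : 2 ^ i ∣ J.relIndex D) (hne : ¬ D ⊓ NM ≤ H1) : 2 ^ (i + 1) ∣ (J ⊓ H1).relIndex D := by
  have h1 : (J ⊓ H1).relIndex D = H1.relIndex (J ⊓ D) * J.relIndex D := by
    have h2 := Subgroup.relIndex_mul_relIndex (J ⊓ H1 ⊓ D) (J ⊓ D) D
      (inf_le_inf_right D inf_le_left) inf_le_right
    rw [Subgroup.inf_relIndex_right, Subgroup.inf_relIndex_right] at h2
    rw [← h2]
    congr 1
    have h3 : J ⊓ H1 ⊓ D = H1 ⊓ (J ⊓ D) := by
      rw [inf_comm J H1, inf_assoc]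
    rw [h3, Subgroup.inf_relIndex_right]
  rw [h1, pow_succ, mul_comm]
  refine mul_dvd_mul ?_ hd
  by_contra hodd
  apply hne
  rintro e ⟨heD, heN⟩
  have hst : MulAction.stabilizer (J ⊓ D : Subgroup G) ((1 : G) : G ⧸ H1) =
      H1.subgroupOf (J ⊓ D) := by
    ext x
    rw [MulAction.mem_stabilizer_iff, Subgroup.mem_subgroupOf]
    constructor
    · intro hx
      have h2 : (((x : G) * 1 : G) : G ⧸ H1) = ((1 : G) : G ⧸ H1) := hx
      rw [eq_comm, QuotientGroup.eq, inv_one, one_mul, mul_one] at h2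
      exact h2
    · intro hx
      change (((x : G) * 1 : G) : G ⧸ H1) = ((1 : G) : G ⧸ H1)
      rw [eq_comm, QuotientGroup.eq, inv_one, one_mul, mul_one]
      exact hx
  have h2 := Deep_grp (J ⊓ D) NM N H1 hsq hN 1 (by rw [hst]; exact hodd) e ⟨hJ heN, heD⟩ heN
  rwa [inv_one, one_mul, mul_one] at h2

end Pool.Agent.GJ
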