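import Pool.Agent.GJ.Bas
import Pool.Agent.TS.L.Com
import Pool.Agent.TS.K.Odd

/-!
# GJ/H-Kil: killers

`kil`: a variant of `killer` (TS/L/Com): there is a subgroup containing `N` with an odd mark at `t` such that either it contains
no group `P.D ⊓ NM` over `V ∖ T`, or some `t ^ 2 ^ a` is in some `P.D` modulo `NM`.
-/

namespace Pool.Agent.GJ

open MulAction Pool.Agent.H73.DU Pool.Agent.H73.AL Pool.Agent.LD Pool.Agent.TS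

theorem kil {V T : Finset ℕ} (NM N : Subgroup GQ) [NM.Normal] [N.Normal]
    (hN : IsOpen (N : Set GQ)) (hsq : ∀ e ∈ NM, e * e ∈ N)
    (hu : ∀ (p : ℕ) [Fact p.Prime], p ∈ V → p ∉ T → ∃ u ∈ decomp ℚ_[p] (emb p), u ∈ NM ∧
        ∀ σ : GQ, σ * u * σ⁻¹ * u⁻¹ ∈ N → ∃ d ∈ decomp ℚ_[p] (emb p), d⁻¹ * σ ∈ NM) (t : GQ) :
    ∃ (a q : ℕ) (H : Subgroup GQ), ¬ 2 ∣ q ∧ (t ^ 2 ^ a) ^ q ∈ N ∧ N ≤ H ∧
      ¬ (2 : ℤ) ∣ pc H (Subgroup.zpowers t) ∧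
      ((∀ P : Pl, Pin V T P → ¬ P.D ⊓ NM ≤ H) ∨ ∃ P : Pl, Pin V T P ∧
        ∃ d ∈ P.D, d⁻¹ * t ^ 2 ^ a ∈ NM) := by
  have : N.FiniteIndex := (nice_rat T).finiteIndex hN
  obtain ⟨a, q, H, hq, ht, hNH, hodd, hn⟩ := exists_odd N t
  refine ⟨a, q, H, hq, ht, hNH, hodd, ?_⟩
  by_cases h : ∀ P : Pl, Pin V T P → ¬ P.D ⊓ NM ≤ H
  · exact Or.inl h
  · right
    push Not at h
    obtain ⟨P, hP, hle⟩ := h
    obtain ⟨u, hud, huN, hu'⟩ := hu P.p hP.1 hP.2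
    have h1 : P.g * u * P.g⁻¹ ∈ H := by
      refine hle (Subgroup.mem_inf.2 ⟨?_, ‹NM.Normal›.conj_mem u huN P.g⟩)
      have h2 := mem_cj (a := P.g⁻¹) hud
      rw [inv_inv] at h2
      exact h2
    obtain ⟨d, hd, hd'⟩ := hu' _ (com NM N hsq (g := P.g) huN hq ht (hn _ h1))
    refine ⟨P, hP, P.g * d * P.g⁻¹, ?_, ?_⟩
    · have h2 := mem_cj (a := P.g⁻¹) hd
      rw [inv_inv] at h2
      exact h2
    · have h2 := ‹NM.Normal›.conj_mem _ hd' P.g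
      have h3 : P.g * (d⁻¹ * (P.g⁻¹ * t ^ 2 ^ a * P.g)) * P.g⁻¹ =
          (P.g * d * P.g⁻¹)⁻¹ * t ^ 2 ^ a := by
        group
      rw [h3] at h2
      exact h2

end Pool.Agent.GJ
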