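import Pool.Agent.GJ.H.LemK
import Pool.Agent.GJ.H.Deep
import Pool.Agent.GJ.H.Kil
import Pool.Agent.GJ.H.Loc
import Pool.Agent.TS.L.Ext
import Pool.Agent.GJ.D.Mem

/-!
# GJ/H-Step: the step of ALG (paper H)

PLAN.  `J` from `exists_tr` (of level `i` by `ci_of_marks`, totally real: `Ex`, so `pc J ∈ ES`).  `NM` = normal core of `H ⊓ J`, open (`nice_rat`, `.core`), index at most `bM H.index = (H.index ^ 2)!` (compare `exists_NM`, TS/A/Core).  `N` from `exists_N` (TS/L/Ext) for `V`, `T`, `NM`.  `h = pc H - pc J`.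
`lemK2` with `C = {L | N ≤ L ∧ H.index ∣ L.index ∧ Ci V T i L}` (`Cls`), `C' = {L ∈ C | Ci V T (i + 1) L}`, `𝒰 = famT T`, `Kp L = ∀ P, Pin V T P → ¬ P.D ⊓ NM ≤ L`.  `hk`: `pc_mul` (TS/S/Prod) and `deep` (for `H`, `J ≥ NM`, `cj b L`: `Kp (cj b L)`, as the `P.D` are stable under conjugation).
`hU`: `U = zpowers t`: `kil`; second case: `t ^ 2 ^ a = d m`, so `h` at `t` is congruent to `h (zpowers (t ^ 2 ^ a)) = h (zpowers d) = 0` modulo `2` (`pc_mod` of TS/K/Odd; `NM` normal in `H`, `J`: `pc H (zpowers (d m)) = pc H (zpowers d)`; marks of `H`, `J` agree at the subgroups of `P.D`).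
`U` in a decomposition group of `T`: `h U = 0`.  Then `MC C 𝒰`: `mem_two`, `hbad`, `mem_zero`; `RC C'`: `mem_Ex`.  Indices: `L.index ≤ N.index` as `N ≤ L`.
-/

namespace Pool.Agent.GJ

open MulAction Pool.Agent.H73.DU Pool.Agent.H73.AL Pool.Agent.LD Pool.Agent.TS

private theorem st_le_cj {N H : Subgroup GQ} (hn : N.Normal) (h : N ≤ H) (b : GQ) :
    N ≤ cj b H := by
  intro g hg
  refine mem_cj_iff.2 ⟨b * g * b⁻¹, h (hn.conj_mem g hg b), ?_⟩
  group

/-- marks depend only on the action modulo a normal subgroup -/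
private theorem st_congr {NM H : Subgroup GQ} (hn : NM.Normal) (h : NM ≤ H) {t d : GQ}
    (ht : d⁻¹ * t ∈ NM) : pc H (Subgroup.zpowers t) = pc H (Subgroup.zpowers d) := by
  have h1 : ∀ x : GQ ⧸ H, t • x = d • x := by
    intro x
    induction x using QuotientGroup.induction_on with
    | H a =>
      change (((t * a : GQ) : GQ ⧸ H) = ((d * a : GQ)))
      rw [eq_comm, QuotientGroup.eq]
      have h2 : (d * a)⁻¹ * (t * a) = a⁻¹ * (d⁻¹ * t) * a⁻¹⁻¹ := by group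
      rw [h2]
      exact h (hn.conj_mem _ ht a⁻¹)
  have h3 : fx (GQ ⧸ H) (Subgroup.zpowers t) = fx (GQ ⧸ H) (Subgroup.zpowers d) := by
    ext x
    rw [fx_zpowers, fx_zpowers, h1 x]
  unfold pc pch
  rw [h3]

private theorem st_core (J : Subgroup GQ) (hJ : J.index ≠ 0) :
    J.normalCore.index ≤ J.index.factorial := by
  have hfin : J.FiniteIndex := ⟨hJ⟩
  have : Finite (GQ ⧸ J) := inferInstance
  rw [Subgroup.normalCore_eq_ker, Subgroup.index_ker]
  refine (Nat.card_le_card_of_injective _ Subtype.val_injective).trans ?_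
  rw [Nat.card_perm]
  exact le_rfl

private theorem st_mv {L NM : Subgroup GQ} (hn : NM.Normal) {P : Pl} {b : GQ}
    (h : P.D ⊓ NM ≤ cj b L) : (P.mv b).D ⊓ NM ≤ L := by
  rintro x ⟨hx, hx'⟩
  have h1 : b⁻¹ * x * b ∈ P.D := by
    unfold Pl.D Pl.mv at hx
    obtain ⟨u, hu, hux⟩ := mem_cj_iff.1 hx
    unfold Pl.D
    refine mem_cj_iff.2 ⟨u, hu, ?_⟩
    rw [← hux]
    simp only [inv_inv, mul_inv_rev]
    group
  have h2 : b⁻¹ * x * b ∈ NM := by
    have := hn.conj_mem x hx' b⁻¹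
    rwa [inv_inv] at this
  obtain ⟨u, hu, hux⟩ := mem_cj_iff.1 (h ⟨h1, h2⟩)
  have h3 : u = x := by
    have h4 : u = b * (b⁻¹ * u * b) * b⁻¹ := by group
    rw [h4, hux]
    group
  rw [← h3]
  exact hu

theorem step {V T : Finset ℕ} (hTp : ∀ p ∈ T, p.Prime) (h2 : 2 ∈ T) {i B : ℕ} {H : Subgroup GQ}
    (hH : Ci V T i H)
    (hbad : ∀ L H' : Subgroup GQ, Ci V T i L → IsOpen (H' : Set GQ) → L ≤ H' →
      L.relIndex H' = 2 → H.index ∣ L.index → L.index ≤ bM H.index * 2 ^ bM H.index →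
      pc L ∈ ES V T i H.index B)
    (hB : bM H.index * 2 ^ bM H.index ≤ B) : pc H ∈ ES V T i H.index B := by
  classical
  obtain ⟨J, hJo, hJTR, hJi, hJm⟩ := exists_tr (V := V) (T := T) hH.op
  have hJ : Ci V T i J := ci_of_marks hH hJo fun P hP U hU =>
    hJm P (Finset.mem_union_left _ hP.1) U hU
  -- the normal core
  have hHf : H.FiniteIndex := (nice_rat T).finiteIndex hH.op
  have hJf : J.FiniteIndex := (nice_rat T).finiteIndex hJo
  have hHJo : IsOpen ((H ⊓ J : Subgroup GQ) : Set GQ) := by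
    rw [Subgroup.coe_inf]
    exact hH.op.inter hJo
  have hi0 : (H ⊓ J).index ≠ 0 := Subgroup.index_inf_ne_zero hHf.index_ne_zero hJf.index_ne_zero
  obtain ⟨NM, hNMn, hNMo, hNMi, hNMle⟩ : ∃ NM : Subgroup GQ, NM.Normal ∧
      IsOpen (NM : Set GQ) ∧ NM.index ≤ bM H.index ∧ NM ≤ H ⊓ J := by
    refine ⟨(H ⊓ J).normalCore, Subgroup.normalCore_normal _, (nice_rat T).core hHJo,
      (st_core _ hi0).trans (Nat.factorial_le ?_), Subgroup.normalCore_le _⟩
    refine (Subgroup.index_inf_le (H := H) (K := J)).trans ?_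
    rw [hJi, sq]
  have hNMH : NM ≤ H := hNMle.trans inf_le_left
  have hNMJ : NM ≤ J := hNMle.trans inf_le_right
  obtain ⟨N, hNn, hNo, hNle, hNsq, hNi, hNu⟩ := exists_N (V := V) hTp h2 NM hNMo
  have hNf : N.FiniteIndex := (nice_rat T).finiteIndex hNo
  have hNB : N.index ≤ bM H.index * 2 ^ bM H.index :=
    hNi.trans (Nat.mul_le_mul hNMi (Nat.pow_le_pow_right (by norm_num) hNMi))
  have hidx : ∀ L : Subgroup GQ, N ≤ L → L.index ≤ bM H.index * 2 ^ bM H.index := fun L hL =>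
    (Nat.le_of_dvd (Nat.pos_of_ne_zero Subgroup.FiniteIndex.index_ne_zero)
      (Subgroup.index_dvd_of_le hL)).trans hNB
  have hop : ∀ L : Subgroup GQ, N ≤ L → IsOpen (L : Set GQ) := fun L hL =>
    Subgroup.isOpen_mono hL hNo
  have hfin : ∀ L : Subgroup GQ, N ≤ L → Finite (GQ ⧸ L) := fun L hL =>
    (nice_rat T).fin (hop L hL)
  -- the classes
  set C : Set (Subgroup GQ) := {L | N ≤ L ∧ H.index ∣ L.index ∧ Ci V T i L} with hCdef
  set C' : Set (Subgroup GQ) := {L | L ∈ C ∧ Ci V T (i + 1) L} with hC'def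
  have hinf : ∀ L ∈ C, ∀ K : Subgroup GQ, N ≤ K → ∀ b : GQ, L ⊓ cj b K ∈ C := by
    intro L hL K hK b
    have h3 : N ≤ L ⊓ cj b K := le_inf hL.1 (st_le_cj hNn hK b)
    exact ⟨h3, hL.2.1.trans (Subgroup.index_dvd_of_le inf_le_left),
      hL.2.2.mono inf_le_left (hop _ h3)⟩
  have hC : Cls C := ⟨fun L hL => hfin L hL.1, fun L hL K hK b => hinf L hL K hK.1 b⟩
  have hHC : H ∈ C := ⟨hNle.trans hNMH, dvd_rfl, hH⟩
  have hJC : J ∈ C := ⟨hNle.trans hNMJ, by rw [hJi], hJ⟩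
  have hh : pc H - pc J ∈ RC C := AddSubgroup.sub_mem _
    (AddSubgroup.subset_closure ⟨H, hHC, rfl⟩) (AddSubgroup.subset_closure ⟨J, hJC, rfl⟩)
  have hC' : ∀ L ∈ C', ∀ K : Subgroup GQ, N ≤ K → ∀ b : GQ, L ⊓ cj b K ∈ C' := by
    intro L hL K hK b
    have h3 := hinf L hL.1 K hK b
    exact ⟨h3, hL.2.mono inf_le_left (hop _ h3.1)⟩
  -- killing
  have hkk : ∀ K ∈ C, NM ≤ K → ∀ L : Subgroup GQ, N ≤ L →
      (∀ P : Pl, Pin V T P → ¬ P.D ⊓ NM ≤ L) → pc K * pc L ∈ RC C' := by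
    intro K hK hNK L hL hKp
    have := hfin K hK.1
    have := hfin L hL
    refine pc_mul K L _ fun b => AddSubgroup.subset_closure ⟨K ⊓ cj b L, ⟨hinf K hK L hL b, ?_⟩, rfl⟩
    refine ⟨hop _ (hinf K hK L hL b).1, fun P hP => ?_⟩
    exact deep NM N hNsq hNK (st_le_cj hNn hL b) (hK.2.2.2 P hP) fun hcon =>
      hKp (P.mv b) hP (st_mv hNMn hcon)
  have hk : ∀ L : Subgroup GQ, N ≤ L → (∀ P : Pl, Pin V T P → ¬ P.D ⊓ NM ≤ L) →
      (pc H - pc J) * pc L ∈ RC C' := by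
    intro L hL hKp
    rw [sub_mul]
    exact AddSubgroup.sub_mem _ (hkk H hHC hNMH L hL hKp) (hkk J hJC hNMJ L hL hKp)
  have hU : ∀ U ∈ famT T, (2 : ℤ) ∣ (pc H - pc J) U ∨ ∃ L : Subgroup GQ, N ≤ L ∧
      (∀ P : Pl, Pin V T P → ¬ P.D ⊓ NM ≤ L) ∧ ¬ (2 : ℤ) ∣ pc L U := by
    rintro U (⟨t, rfl⟩ | ⟨l, hl, a, hlT, hU⟩)
    · obtain ⟨a, q, L, -, -, hNL, hodd, h3 | ⟨P, hP, d, hd, hdt⟩⟩ := kil NM N hNo hNsq hNu t
      · exact Or.inr ⟨L, hNL, h3, hodd⟩
      · left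
        have := hfin H hHC.1
        have := hfin J hJC.1
        have e1 := pc_mod H t a
        have e2 := pc_mod J t a
        rw [st_congr hNMn hNMH hdt] at e1
        rw [st_congr hNMn hNMJ hdt] at e2
        have e3 : pc H (Subgroup.zpowers d) = pc J (Subgroup.zpowers d) :=
          hJm P (Finset.mem_union_left _ hP.1) _ (by rw [Subgroup.zpowers_le]; exact hd)
        rw [Pi.sub_apply]
        have e4 : pc H (Subgroup.zpowers t) - pc J (Subgroup.zpowers t) =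
            (pc H (Subgroup.zpowers t) - pc H (Subgroup.zpowers d)) -
            (pc J (Subgroup.zpowers t) - pc J (Subgroup.zpowers d)) := by
          rw [e3]
          ring
        rw [e4]
        exact dvd_sub e1 e2
    · left
      have h3 : U ≤ (Pl.mk l a).D := by
        intro x hx
        unfold Pl.D
        refine mem_cj_iff.2 ⟨a⁻¹ * x * a, hU (mem_cj hx), ?_⟩
        group
      rw [Pi.sub_apply, hJm (Pl.mk l a) (Finset.mem_union_right _ hlT) U h3, sub_self]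
      exact dvd_zero _
  have hmem := lemK2 N hC (fun L hL => hL.1) hC' (famT T) hh
    (fun L => ∀ P : Pl, Pin V T P → ¬ P.D ⊓ NM ≤ L) hk hU
  -- the span
  have hle : MC C (famT T) ⊔ RC C' ≤ ES V T i H.index B := by
    refine sup_le ?_ ?_
    · unfold MC
      rw [AddSubgroup.closure_le]
      rintro f (⟨L, hL, rfl⟩ | ⟨L, hL, ⟨Y, hY, hY2⟩, rfl⟩ | hf)
      · exact mem_two hL.2.2 hL.2.1 ((hidx L hL.1).trans hB)
      · exact hbad L Y hL.2.2 (hop Y (hL.1.trans hY)) hY hY2 hL.2.1 (hidx L hL.1)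
      · exact mem_zero hf
    · unfold RC
      rw [AddSubgroup.closure_le]
      rintro f ⟨L, hL, rfl⟩
      exact mem_Ex ⟨hL.1.2.2, Or.inl hL.2⟩ hL.1.2.1 ((hidx L hL.1.1).trans hB)
  have hpJ : pc J ∈ ES V T i H.index B :=
    mem_Ex ⟨hJ, Or.inr (Or.inl hJTR)⟩ hJC.2.1 ((hidx J hJC.1).trans hB)
  have hfinal : pc H = (pc H - pc J) + pc J := by abel
  rw [hfinal]
  exact AddSubgroup.add_mem _ (hle hmem) hpJ

end Pool.Agent.GJ
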