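import Pool.Agent.GJ.G.Bad
import Pool.Agent.GJ.H.Step

/-!
# GJ/H-Alg: theorem ALG (paper H)
-/

namespace Pool.Agent.GJ

open MulAction Pool.Agent.H73.DU Pool.Agent.H73.AL Pool.Agent.LD Pool.Agent.TS

theorem alg (i : ℕ) : ∃ b : ℕ → ℕ, ∀ (T : Finset ℕ) (_ : ∀ p ∈ T, p.Prime)
    (_ : 2 ∈ T) (V : Finset ℕ) (_ : ∃ P : Pl, Pin V T P) (H : Subgroup GQ), Ci V T i H →
      pc H ∈ ES V T i H.index (b H.index) := by
  induction i with
  | zero =>
    refine ⟨fun k => bM k * 2 ^ bM k, ?_⟩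
    intro T hTp h2 V _ H hH
    refine step hTp h2 hH ?_ le_rfl
    intro L H' hL hH' hLH hi hn hB
    exact quad_mem (Ci.zero hH') hL.1 hLH hi hn hB
  | succ i ih =>
    obtain ⟨c, hc⟩ := ih
    obtain ⟨b, hb⟩ := bad i c
    refine ⟨fun k => bM k * 2 ^ bM k + ∑ m ∈ Finset.range (bM k * 2 ^ bM k + 1), b m, ?_⟩
    intro T hTp h2 V hV H hH
    refine step hTp h2 hH ?_ (Nat.le_add_right _ _)
    intro L H' hL hH' hLH hi hn hB
    refine hb hTp h2 hV (fun K hK => hc T hTp h2 V hV K hK) hL hH' hLH hi _ _ hn ?_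
    refine le_trans ?_ (Nat.le_add_left _ _)
    exact Finset.single_le_sum (f := b) (fun _ _ => Nat.zero_le _)
      (Finset.mem_range.2 (Nat.lt_succ_of_le hB))

end Pool.Agent.GJ
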