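import Pool.Agent.TS.K.Kill

/-!
# GJ/H-LemK: killing with two classes

As `lemK` (TS/K/Kill): the set `S` of the subgroups `H ≥ N` with `Kp H` is finite; the element
`y = h * ∏ H ∈ S, (1 - pc H)` differs from `h` by an element of `RC C'` and is even on `𝒰`.
-/

namespace Pool.Agent.GJ

open MulAction Pool.Agent.H73.DU Pool.Agent.H73.AL Pool.Agent.LD Pool.Agent.TS

variable {G : Type} [Group G]

private theorem LemK_fin {N H : Subgroup G} [N.FiniteIndex] (h : N ≤ H) : Finite (G ⧸ H) := by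
  have : H.FiniteIndex := Subgroup.finiteIndex_of_le h
  exact Subgroup.finite_quotient_of_finiteIndex

private theorem LemK_mul (N : Subgroup G) [N.FiniteIndex] {C C' : Set (Subgroup G)}
    (hC : Cls C) (hCC : C' ⊆ C)
    (hC' : ∀ J ∈ C', ∀ H : Subgroup G, N ≤ H → ∀ b : G, J ⊓ cj b H ∈ C')
    {H : Subgroup G} (hN : N ≤ H) {y : Subgroup G → ℤ} (hy : y ∈ RC C') :
    y * pc H ∈ RC C' := by
  unfold RC at hy
  induction hy using AddSubgroup.closure_induction with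
  | mem f hf =>
    obtain ⟨K, hK, rfl⟩ := hf
    have := hC.1 K (hCC hK)
    have := LemK_fin hN
    exact pc_mul K H _ fun b => AddSubgroup.subset_closure ⟨K ⊓ cj b H, hC' K hK H hN b, rfl⟩
  | zero =>
    rw [zero_mul]
    exact zero_mem _
  | add a b _ _ ha hb =>
    rw [add_mul]
    exact add_mem ha hb
  | neg a _ ha =>
    rw [neg_mul]
    exact neg_mem ha

private theorem LemK_ind (N : Subgroup G) [N.FiniteIndex] {C C' : Set (Subgroup G)}
    (hC : Cls C) (hCC : C' ⊆ C)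
    (hC' : ∀ J ∈ C', ∀ H : Subgroup G, N ≤ H → ∀ b : G, J ⊓ cj b H ∈ C')
    {h : Subgroup G → ℤ} (Kp : Subgroup G → Prop)
    (hk : ∀ H : Subgroup G, N ≤ H → Kp H → h * pc H ∈ RC C')
    (s : Finset (Subgroup G)) (hs : ∀ H ∈ s, N ≤ H ∧ Kp H) :
    h * ∏ H ∈ s, (1 - pc H) - h ∈ RC C' := by
  classical
  induction s using Finset.induction_on with
  | empty =>
    rw [Finset.prod_empty, mul_one, sub_self]
    exact zero_mem _
  | insert H s hH ih =>
    have h2 := ih fun K hK => hs K (Finset.mem_insert_of_mem hK)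
    obtain ⟨h3, h4⟩ := hs H (Finset.mem_insert_self H s)
    have h5 := LemK_mul N hC hCC hC' h3 h2
    have h6 : h * ∏ K ∈ insert H s, (1 - pc K) - h =
        (h * ∏ K ∈ s, (1 - pc K) - h) - (h * ∏ K ∈ s, (1 - pc K) - h) * pc H - h * pc H := by
      rw [Finset.prod_insert hH]
      ring
    rw [h6]
    exact sub_mem (sub_mem h2 h5) (hk H h3 h4)

theorem lemK2 (N : Subgroup G) [N.Normal] [N.FiniteIndex] {C C' : Set (Subgroup G)} (hC : Cls C)
    (hCC : C' ⊆ C) (hC' : ∀ J ∈ C', ∀ H : Subgroup G, N ≤ H → ∀ b : G, J ⊓ cj b H ∈ C')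
    (𝒰 : Set (Subgroup G)) {h : Subgroup G → ℤ} (hh : h ∈ RC C) (Kp : Subgroup G → Prop)
    (hk : ∀ H : Subgroup G, N ≤ H → Kp H → h * pc H ∈ RC C')
    (hU : ∀ U ∈ 𝒰, (2 : ℤ) ∣ h U ∨ ∃ H : Subgroup G, N ≤ H ∧ Kp H ∧ ¬ (2 : ℤ) ∣ pc H U) :
    h ∈ MC C 𝒰 ⊔ RC C' := by
  classical
  have : Finite (G ⧸ N) := LemK_fin le_rfl
  have : Finite (Subgroup (G ⧸ N)) := inferInstance
  have hf1 : Finite ({H : Subgroup G | N ≤ H} : Set (Subgroup G)) :=
    Finite.of_equiv _ (QuotientGroup.comapMk'OrderIso N).toEquiv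
  have hf2 : {H : Subgroup G | N ≤ H ∧ Kp H}.Finite :=
    (Set.finite_coe_iff.1 hf1).subset fun H hH => hH.1
  have hle : RC C' ≤ RC C := AddSubgroup.closure_mono fun f hf => by
    obtain ⟨H, hH, rfl⟩ := hf
    exact ⟨H, hCC hH, rfl⟩
  have h2 := LemK_ind N hC hCC hC' Kp hk hf2.toFinset fun H hH => (hf2.mem_toFinset.1 hH)
  have h1 : h * ∏ H ∈ hf2.toFinset, (1 - pc H) ∈ RC C := by
    have h0 := add_mem (hle h2) hh
    rwa [sub_add_cancel] at h0
  refine AddSubgroup.mem_sup.2 ⟨_, lemS hC 𝒰 h1 ?_, _, neg_mem h2, ?_⟩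
  · intro U hUm
    rw [Pi.mul_apply, Finset.prod_apply]
    rcases hU U hUm with h3 | ⟨H, hN, hE, h3⟩
    · exact Dvd.dvd.mul_right h3 _
    · refine Dvd.dvd.mul_left ?_ _
      have h4 : (2 : ℤ) ∣ (1 - pc H) U := by
        rw [Pi.sub_apply, Pi.one_apply]
        omega
      exact h4.trans (Finset.dvd_prod_of_mem (fun K : Subgroup G => (1 - pc K) U)
        (hf2.mem_toFinset.2 ⟨hN, hE⟩))
  · ring

end Pool.Agent.GJ
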